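import Pool.Agent.K4H52.FC.Main
import Pool.Agent.K4H52.FC.Crit

/-!
# MP_30d25d_nt, sums of four cubes: infinitely many representations

For every integer `m` not congruent to `±4 (mod 9)` or to `±38 (mod 108)` the equation
`x^3 + y^3 + z^3 + w^3 = m` has infinitely many integer solutions.  For `m ≡ ±4 (mod 9)` it has
infinitely many solutions if and only if it has one with `(x + y)(z + w) < 0` other than
`x = y, z = w`.

Idea of the proof.  With `s = x + y`, `t = z + w` fixed the equation becomes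
`s (x-y)^2 + t (z-w)^2 = const`, so Pell's equation gives infinitely many solutions if `-s t` is
positive and not a square (and not both `x = y`, `z = w`).  If `m ≡ ±4 (mod 9)` and `s t < 0`, then
`-s t ≡ 2 (mod 3)` is never a square.  In the other classes the equation has a solution given by
polynomials.  Apart from `6 ∣ m` one takes the known polynomials and pairs the four numbers in
another way.  For `m = 12 j` and `m = 6 n`, `n` odd, we use
`(42j²+2j+1)³ + (-42j²+2j-1)³ + (21j²-8j)³ + (-21j²-8j)³ = 12 j` and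
`(4n-2-21τ)³ + (4n+2+21τ)³ + (-n-6-42τ)³ + (-n+6+42τ)³ = 6 n`, where `n² = 8τ+1`.
-/

set_option autoImplicit false

namespace Pool.Agent.Results.MP_30d25d_nt.FourCubes

/-- the set `S(m)` of all integer solutions of `x^3 + y^3 + z^3 + w^3 = m` -/
def Sols (m : ℤ) : Set (ℤ × ℤ × ℤ × ℤ) :=
  {v | v.1 ^ 3 + v.2.1 ^ 3 + v.2.2.1 ^ 3 + v.2.2.2 ^ 3 = m}

theorem result :
    (∀ m : ℤ, m % 9 ≠ 4 → m % 9 ≠ 5 → m % 108 ≠ 38 → m % 108 ≠ 70 → (Sols m).Infinite) ∧
    (∀ m : ℤ, (m % 9 = 4 ∨ m % 9 = 5) → ((Sols m).Infinite ↔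
      ∃ x y z w : ℤ, (x, y, z, w) ∈ Sols m ∧ (x + y) * (z + w) < 0 ∧ (x ≠ y ∨ z ≠ w))) :=
  ⟨fun m h1 h2 h3 h4 => Pool.Agent.K4H52.FC.infinite_of_good
      (Pool.Agent.K4H52.FC.good_main m ⟨h1, h2⟩ ⟨h3, h4⟩),
    fun _ h => Pool.Agent.K4H52.FC.crit h⟩

end Pool.Agent.Results.MP_30d25d_nt.FourCubes
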